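import Pool.Agent.Q158.Col3.Scales
import Pool.Agent.TH930.EBQ.Words

/-! The binomial law and the direct case. -/

set_option autoImplicit false

namespace Pool.Agent.Q158.Col4

open Finset
open Pool.Agent.TH930.EBQ (ones wd words T iter_eq wd_append wd_length wd_mem wd_inj wd_congr
  sum_words_succ sum_words_add ones_append ones_cons_true ones_cons_false card_words mem_words)
open Pool.Agent.H320R2.PD (FW sum_FW_succ sum_FW_zero wwt Wo)
open Pool.Agent.H499R2.ND (GW cls mem_cls cls_card_le ap mem_ap ap_card_le Vw FW_props cls_unit)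
open Pool.Agent.Q158.Col3 (PB)

/-- the sum over the words of length `n` of a function of the number of ones -/
noncomputable def Mn : ℕ → (ℕ → ℝ) → ℝ
  | 0, f => f 0
  | n + 1, f => Mn n (fun k => f (k + 1)) + Mn n f

lemma Mn_words (n : ℕ) (f : ℕ → ℝ) : Mn n f = ∑ v ∈ words n, f (ones v) := by
  induction n generalizing f with
  | zero => simp [Mn, words]
  | succ n ih =>
    rw [sum_words_succ, Mn, ih, ih, ← sum_add_distrib]
    apply sum_congr rfl
    intro v _
    simp

lemma Mn_nonneg (n : ℕ) {f : ℕ → ℝ} (hf : ∀ k, 0 ≤ f k) : 0 ≤ Mn n f := by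
  rw [Mn_words]
  exact sum_nonneg fun v _ => hf _

lemma Mn_le (n : ℕ) {f : ℕ → ℝ} (hf : ∀ k, f k ≤ 1) : Mn n f ≤ 2 ^ n := by
  rw [Mn_words]
  refine (sum_le_sum (fun v _ => hf (ones v))).trans (le_of_eq ?_)
  rw [sum_const, card_words, nsmul_eq_mul, mul_one]
  push_cast
  rfl

lemma Mn_choose (n : ℕ) (f : ℕ → ℝ) : Mn n f = ∑ k ∈ range (n + 1), (n.choose k : ℝ) * f k := by
  induction n generalizing f with
  | zero => simp [Mn]
  | succ n ih =>
    rw [Mn, ih, ih, sum_range_succ' _ (n + 1)]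
    have h1 : ∀ k ∈ range (n + 1), ((n + 1).choose (k + 1) : ℝ) * f (k + 1) =
        (n.choose k : ℝ) * f (k + 1) + (n.choose (k + 1) : ℝ) * f (k + 1) := by
      intro k _
      rw [Nat.choose_succ_succ]
      push_cast
      ring
    rw [sum_congr rfl h1, sum_add_distrib]
    have h2 : ∑ k ∈ range (n + 1), (n.choose k : ℝ) * f k =
        ∑ k ∈ range (n + 1), (n.choose (k + 1) : ℝ) * f (k + 1) + (n.choose 0 : ℝ) * f 0 := by
      have h3 := sum_range_succ' (fun k => (n.choose k : ℝ) * f k) (n + 1)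
      have h4 := sum_range_succ (fun k => (n.choose k : ℝ) * f k) (n + 1)
      simp only [Nat.choose_succ_self, Nat.cast_zero, zero_mul, add_zero] at h4
      rw [h4] at h3
      exact h3
    rw [h2]
    simp only [Nat.choose_zero_right, Nat.cast_one]
    ring

lemma Mn_add (n : ℕ) (f g : ℕ → ℝ) : Mn n (fun k => f k + g k) = Mn n f + Mn n g := by
  rw [Mn_words, Mn_words, Mn_words, sum_add_distrib]

lemma Mn_const (n : ℕ) (c : ℝ) : Mn n (fun _ => c) = 2 ^ n * c := by
  rw [Mn_words, sum_const, card_words, nsmul_eq_mul]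
  push_cast
  rfl

/-- decomposition at the first one -/
lemma Mn_first (A s : ℕ) {f : ℕ → ℝ} (hf : ∀ k, 0 ≤ f k) :
    ∑ e ∈ Icc 1 A, (if e ≤ s then Mn (s - e) (fun k => f (k + 1)) else 0) ≤ Mn s f := by
  induction s generalizing A with
  | zero =>
    have : ∀ e ∈ Icc 1 A, (if e ≤ 0 then Mn (0 - e) (fun k => f (k + 1)) else 0) = 0 := by
      intro e he
      rw [mem_Icc] at he
      rw [if_neg (by omega)]
    rw [sum_congr rfl this, sum_const_zero]
    exact Mn_nonneg 0 hf
  | succ s ih =>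
    rcases A with _ | A
    · simp
      exact Mn_nonneg _ hf
    · have h1 : Icc 1 (A + 1) = insert 1 ((Icc 1 A).image (fun e => e + 1)) := by
        ext e
        rw [mem_Icc, mem_insert, mem_image]
        constructor
        · rintro ⟨h1, h2⟩
          rcases Nat.eq_or_lt_of_le h1 with h3 | h3
          · exact Or.inl h3.symm
          · exact Or.inr ⟨e - 1, by rw [mem_Icc]; omega, by omega⟩
        · rintro (rfl | ⟨e', he', rfl⟩)
          · omega
          · rw [mem_Icc] at he'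
            omega
      rw [h1, sum_insert (by
        rw [mem_image]
        rintro ⟨e, he, h⟩
        rw [mem_Icc] at he
        omega), sum_image (fun a _ b _ h => by
          have h' : a + 1 = b + 1 := h
          omega)]
      rw [if_pos (by omega), Mn, show s + 1 - 1 = s by omega]
      apply add_le_add_right
      refine le_trans (le_of_eq ?_) (ih A)
      apply sum_congr rfl
      intro e _
      by_cases h : e ≤ s
      · rw [if_pos (by omega), if_pos h]
        congr 1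
        omega
      · rw [if_neg (by omega), if_neg h]

/-- decomposition at the first `k` ones -/
lemma Mn_FW (A k s : ℕ) {f : ℕ → ℝ} (hf : ∀ k, 0 ≤ f k) :
    ∑ w ∈ FW A k, (if w.sum ≤ s then Mn (s - w.sum) (fun j => f (j + k)) else 0) ≤ Mn s f := by
  induction k generalizing s f with
  | zero =>
    rw [sum_FW_zero]
    simp
  | succ k ih =>
    rw [sum_FW_succ]
    refine le_trans ?_ (Mn_first A s hf)
    apply sum_le_sum
    intro e _
    by_cases h : e ≤ s
    · rw [if_pos h]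
      refine le_trans (le_of_eq ?_) (ih (s - e) (f := fun k => f (k + 1)) (fun k => hf _))
      apply sum_congr rfl
      intro v _
      rw [List.sum_cons]
      by_cases h2 : e + v.sum ≤ s
      · rw [if_pos h2, if_pos (by omega)]
        congr 1
        omega
      · rw [if_neg h2, if_neg (by omega)]
    · rw [if_neg h]
      apply le_of_eq
      apply sum_eq_zero
      intro v _
      rw [List.sum_cons, if_neg (by omega)]

/-- the law of an odd starting point -/
noncomputable def Od (t : ℕ) (g : ℕ → ℝ) : ℝ := Mn (t - 1) (fun k => g (k + 1)) / 2 ^ (t - 1)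

lemma Od_nonneg (t : ℕ) {g : ℕ → ℝ} (hg : ∀ k, 0 ≤ g k) : 0 ≤ Od t g :=
  div_nonneg (Mn_nonneg _ fun k => hg _) (by positivity)

lemma Od_le (t : ℕ) {g : ℕ → ℝ} (hg : ∀ k, g k ≤ 1) : Od t g ≤ 1 := by
  unfold Od
  rw [div_le_one (by positivity)]
  exact Mn_le _ fun k => hg _

lemma Od_stage {A k Tl Tm t : ℕ} (hT : Tm < t) {g : ℕ → ℝ} (hg : ∀ k, 0 ≤ g k) :
    ∑ w ∈ GW A k Tl Tm, wwt w * Od (t - w.sum) (fun j => g (j + k)) ≤ Od t g := by
  have h1 : ∀ w ∈ GW A k Tl Tm, wwt w * Od (t - w.sum) (fun j => g (j + k)) =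
      (if w.sum ≤ t - 1 then Mn (t - 1 - w.sum) (fun j => g (j + k + 1)) else 0) / 2 ^ (t - 1) := by
    intro w hw
    unfold GW at hw
    rw [mem_filter] at hw
    rw [if_pos (by omega)]
    unfold wwt Od
    have e1 : t - w.sum - 1 = t - 1 - w.sum := by omega
    rw [e1]
    have e2 : (2 : ℝ) ^ (t - 1) = 2 ^ w.sum * 2 ^ (t - 1 - w.sum) := by
      rw [← pow_add]; congr 1; omega
    rw [e2, one_div, inv_pow]
    have e3 : (fun j => g (j + 1 + k)) = (fun j => g (j + k + 1)) := by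
      funext j; congr 1; omega
    rw [e3]
    field_simp
  rw [sum_congr rfl h1, ← sum_div]
  unfold Od
  apply div_le_div_of_nonneg_right _ (by positivity)
  refine le_trans ?_ (Mn_FW A k (t - 1) (f := fun j => g (j + 1)) (fun j => hg _))
  unfold GW
  apply sum_le_sum_of_subset_of_nonneg (filter_subset _ _)
  intro w _ _
  split_ifs
  · exact Mn_nonneg _ fun j => hg _
  · exact le_rfl

lemma Od_halves {J t : ℕ} (hJ : J ≤ t) {g : ℕ → ℝ} (hg : ∀ k, 0 ≤ g k) :
    ∑ j ∈ range J, (1 / 2 : ℝ) ^ (j + 1) * Od (t - j) g ≤ Mn t g / 2 ^ t := by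
  have h1 : ∀ j ∈ range J, (1 / 2 : ℝ) ^ (j + 1) * Od (t - j) g =
      (if j + 1 ≤ t then Mn (t - (j + 1)) (fun k => g (k + 1)) else 0) / 2 ^ t := by
    intro j hj
    rw [mem_range] at hj
    rw [if_pos (by omega)]
    unfold Od
    have e1 : t - j - 1 = t - (j + 1) := by omega
    rw [e1]
    have e2 : (2 : ℝ) ^ t = 2 ^ (j + 1) * 2 ^ (t - (j + 1)) := by
      rw [← pow_add]; congr 1; omega
    rw [e2, one_div, inv_pow]
    field_simp
  rw [sum_congr rfl h1, ← sum_div]
  apply div_le_div_of_nonneg_right _ (by positivity)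
  refine le_trans (le_of_eq ?_) (Mn_first J t hg)
  have h2 : Icc 1 J = (range J).image (fun j => j + 1) := by
    ext e
    rw [mem_Icc, mem_image]
    constructor
    · rintro ⟨h1, h2⟩
      exact ⟨e - 1, by rw [mem_range]; omega, by omega⟩
    · rintro ⟨j, hj, rfl⟩
      rw [mem_range] at hj
      omega
  rw [h2, sum_image (fun a _ b _ h => by
    have h' : a + 1 = b + 1 := h
    omega)]

open Classical in
/-- the proportion of the residues -/
noncomputable def gg (q : ℕ) (E : ℕ → ℤ → Prop) (k : ℕ) : ℝ :=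
  (((range q).filter (fun r : ℕ => E k (r : ℤ))).card : ℝ) / q

lemma gg_nonneg (q : ℕ) (E : ℕ → ℤ → Prop) (k : ℕ) : 0 ≤ gg q E k := by
  unfold gg
  positivity

lemma gg_le (q : ℕ) (E : ℕ → ℤ → Prop) (k : ℕ) : gg q E k ≤ 1 := by
  classical
  unfold gg
  rcases Nat.eq_zero_or_pos q with h | h
  · rw [h]; simp
  · have hq : (0 : ℝ) < q := by exact_mod_cast h
    rw [div_le_one hq]
    have := card_filter_le (range q) (fun r : ℕ => E k (r : ℤ))
    rw [card_range] at this
    exact_mod_cast this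

lemma gg_compl {q : ℕ} (hq : 1 ≤ q) (E : ℕ → ℤ → Prop) (k : ℕ) :
    gg q E k + gg q (fun k r => ¬ E k r) k = 1 := by
  classical
  unfold gg
  have h0 : (0 : ℝ) < q := by exact_mod_cast hq
  have h := card_filter_add_card_filter_not (s := range q) (fun r : ℕ => E k (r : ℤ))
  rw [card_range] at h
  rw [← add_div, div_eq_one_iff_eq h0.ne']
  norm_cast
  convert h using 2
  apply congrArg
  ext r
  simp only [mem_filter]

/-- the event -/
def SS (t q : ℕ) (E : ℕ → ℤ → Prop) : Set ℤ :=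
  {x | E (ones (wd 1 t x)) ((T 1)^[t] x % q)}

lemma odd1' : Odd (1 : ℤ) := odd_one

lemma class_dvd {q t : ℕ} (h3 : ¬ 3 ∣ q) {m : ℕ} {u v : ℤ} (hu : IsCoprime u 3) {x y : ℤ}
    (hw : wd 1 t x = wd 1 t y) (hx : (3 : ℤ) ^ m ∣ u * x - v) (hy : (3 : ℤ) ^ m ∣ u * y - v)
    (hr : (T 1)^[t] x % q = (T 1)^[t] y % q) : ((2 ^ t * 3 ^ m * q : ℕ) : ℤ) ∣ x - y := by
  obtain ⟨z, hz⟩ := wd_inj odd1' hw
  have hc3 : IsCoprime (3 : ℤ) q := by
    rw [Int.isCoprime_iff_gcd_eq_one]
    have : Nat.Coprime 3 q := (Nat.Prime.coprime_iff_not_dvd Nat.prime_three).2 h3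
    exact_mod_cast this
  have i1 := iter_eq odd1' t x
  have i2 := iter_eq odd1' t y
  rw [hw] at i1
  have h2t : (2 : ℤ) ^ t ≠ 0 := by positivity
  have h4 : (T 1)^[t] x - (T 1)^[t] y = 3 ^ ones (wd 1 t y) * z := by
    apply mul_left_cancel₀ h2t
    linear_combination i1 - i2 + 3 ^ ones (wd 1 t y) * hz
  have h5 : (q : ℤ) ∣ 3 ^ ones (wd 1 t y) * z := by
    rw [← h4]
    exact Int.ModEq.dvd (Int.ModEq.symm hr)
  have h6 : (q : ℤ) ∣ z := (hc3.symm.pow_right).dvd_of_dvd_mul_left h5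
  have h7 : (3 : ℤ) ^ m ∣ u * (x - y) := by
    rw [show u * (x - y) = (u * x - v) - (u * y - v) by ring]
    exact dvd_sub hx hy
  have hu' : IsCoprime ((3 : ℤ) ^ m) u := hu.symm.pow_left
  have h8 : (3 : ℤ) ^ m ∣ 2 ^ t * z := by
    rw [← hz]; exact hu'.dvd_of_dvd_mul_left h7
  have hc2 : IsCoprime ((3 : ℤ) ^ m) (2 ^ t) := by
    apply IsCoprime.pow
    rw [Int.isCoprime_iff_gcd_eq_one]; norm_num
  have h9 : (3 : ℤ) ^ m ∣ z := hc2.dvd_of_dvd_mul_left h8
  have h10 : (3 : ℤ) ^ m * q ∣ z := (hc3.pow_left).mul_dvd h9 h6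
  rw [hz]
  push_cast
  rw [mul_assoc]
  exact mul_dvd_mul_left _ h10

lemma class_le {q t : ℕ} (hq : 1 ≤ q) (h3 : ¬ 3 ∣ q) {m : ℕ} {u v : ℤ} (hu : IsCoprime u 3)
    {a b : ℝ} (hab : a ≤ b) (F : Finset ℤ) (v' : List Bool) (r : ℤ)
    (hF : ∀ x ∈ F, (a ≤ x ∧ (x : ℝ) < b) ∧ (3 : ℤ) ^ m ∣ u * x - v ∧ wd 1 t x = v' ∧
      (T 1)^[t] x % q = r) : (F.card : ℝ) ≤ (b - a) / (2 ^ t * 3 ^ m * q) + 1 := by
  rcases F.eq_empty_or_nonempty with rfl | ⟨y, hy⟩
  · rw [card_empty, Nat.cast_zero]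
    have : 0 ≤ (b - a) / (2 ^ t * 3 ^ m * q) := div_nonneg (by linarith) (by positivity)
    linarith
  · obtain ⟨-, hy1, hy2, hy3⟩ := hF y hy
    have hsub : F ⊆ ap a b (2 ^ t * 3 ^ m * q) y := by
      intro x hx
      obtain ⟨hx0, hx1, hx2, hx3⟩ := hF x hx
      rw [mem_ap]
      exact ⟨hx0, by
        have := class_dvd h3 hu (hx2.trans hy2.symm) hx1 hy1 (hx3.trans hy3.symm)
        exact_mod_cast this⟩
    have h1 : (F.card : ℝ) ≤ (ap a b (2 ^ t * 3 ^ m * q) y).card := by
      exact_mod_cast card_le_card hsub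
    have h2 := ap_card_le hab (q := 2 ^ t * 3 ^ m * q) (by positivity) y
    push_cast at h2
    linarith

/-- the direct case -/
theorem direct {q t m : ℕ} (hq : 1 ≤ q) (h3 : ¬ 3 ∣ q) (ht : 1 ≤ t) {a b : ℝ} (hab : a < b)
    (E : ℕ → ℤ → Prop) :
    PB (SS t q E) a b m (Od t (gg q E) + 2 ^ t * 3 ^ m * q / (b - a)) := by
  classical
  intro u v hu
  have hba : 0 < b - a := by linarith
  have hq0 : (0 : ℝ) < q := by exact_mod_cast hq
  set X := cls (SS t q E) a b m u v with hX
  -- the words of the points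
  have hmap : ∀ x ∈ X, wd 1 t x ∈ (words (t - 1)).image (List.cons true) := by
    intro x hx
    rw [hX, mem_cls] at hx
    rw [mem_image]
    obtain ⟨s, rfl⟩ := Nat.exists_eq_add_of_le ht
    refine ⟨wd 1 s (T 1 x), by rw [show 1 + s - 1 = s by omega]; exact wd_mem _ _ _, ?_⟩
    rw [Nat.add_comm 1 s]
    simp only [wd]
    have := Int.odd_iff.1 hx.2.1
    rw [this]
    simp
  have h1 : (X.card : ℝ) = ∑ v' ∈ (words (t - 1)).image (List.cons true),
      ((X.filter (fun x => wd 1 t x = v')).card : ℝ) := by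
    rw [card_eq_sum_card_fiberwise hmap]
    push_cast
    rfl
  rw [h1, sum_image (fun a _ b _ h => by simpa using h)]
  have h2 : ∀ v' ∈ words (t - 1), ((X.filter (fun x => wd 1 t x = true :: v')).card : ℝ) ≤
      (gg q E (ones v' + 1) * q) * ((b - a) / (2 ^ t * 3 ^ m * q) + 1) := by
    intro v' _
    set R := (range q).filter (fun r : ℕ => E (ones v' + 1) (r : ℤ)) with hR
    have h3' : gg q E (ones v' + 1) * q = R.card := by
      unfold gg
      rw [div_mul_cancel₀ _ hq0.ne', hR]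
    rw [h3']
    have hmap2 : ∀ x ∈ X.filter (fun x => wd 1 t x = true :: v'),
        ((T 1)^[t] x % q).toNat ∈ R := by
      intro x hx
      rw [mem_filter, hX, mem_cls] at hx
      obtain ⟨⟨_, _, hS, _⟩, hw⟩ := hx
      have hnn : 0 ≤ (T 1)^[t] x % q := Int.emod_nonneg _ (by exact_mod_cast hq0.ne')
      have hlt : (T 1)^[t] x % q < q := Int.emod_lt_of_pos _ (by exact_mod_cast hq)
      rw [hR, mem_filter, mem_range]
      refine ⟨by omega, ?_⟩
      unfold SS at hS
      rw [Set.mem_ofPred_eq, hw, ones_cons_true] at hS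
      rwa [Int.toNat_of_nonneg hnn]
    have h4 : ((X.filter (fun x => wd 1 t x = true :: v')).card : ℝ) =
        ∑ r ∈ R, (((X.filter (fun x => wd 1 t x = true :: v')).filter
          (fun x => ((T 1)^[t] x % q).toNat = r)).card : ℝ) := by
      rw [card_eq_sum_card_fiberwise hmap2]
      push_cast
      rfl
    rw [h4]
    have h5 : ∀ r ∈ R, (((X.filter (fun x => wd 1 t x = true :: v')).filter
          (fun x => ((T 1)^[t] x % q).toNat = r)).card : ℝ) ≤
          (b - a) / (2 ^ t * 3 ^ m * q) + 1 := by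
      intro r _
      apply class_le hq h3 hu hab.le _ (true :: v') r
      intro x hx
      rw [mem_filter, mem_filter, hX, mem_cls] at hx
      obtain ⟨⟨⟨h6, _, _, h7⟩, hw⟩, h8⟩ := hx
      refine ⟨h6, h7, hw, ?_⟩
      have hnn : 0 ≤ (T 1)^[t] x % q := Int.emod_nonneg _ (by exact_mod_cast hq0.ne')
      omega
    refine (sum_le_sum h5).trans (le_of_eq ?_)
    rw [sum_const, nsmul_eq_mul]
  refine (sum_le_sum h2).trans ?_
  rw [← sum_mul, ← sum_mul]
  have h6 : ∑ v' ∈ words (t - 1), gg q E (ones v' + 1) = Mn (t - 1) (fun k => gg q E (k + 1)) := by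
    rw [Mn_words]
  rw [h6]
  have h7 : Mn (t - 1) (fun k => gg q E (k + 1)) ≤ 2 ^ (t - 1) := Mn_le _ fun k => gg_le _ _ _
  have h8 : 0 ≤ Mn (t - 1) (fun k => gg q E (k + 1)) := Mn_nonneg _ fun k => gg_nonneg _ _ _
  unfold Od
  have e2 : (2 : ℝ) ^ t = 2 * 2 ^ (t - 1) := by
    rw [← pow_succ']; congr 1; omega
  rw [e2]
  set Z := Mn (t - 1) (fun k => gg q E (k + 1))
  set P : ℝ := 2 ^ (t - 1) with hP
  have hP0 : 0 < P := by positivity
  have e3 : (Z / P + 2 * P * 3 ^ m * q / (b - a)) * ((b - a) / (2 * 3 ^ m)) =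
      Z * q * ((b - a) / (2 * P * 3 ^ m * q)) + P * q := by
    field_simp
  rw [e3, mul_add, mul_one]
  apply add_le_add_right
  exact mul_le_mul_of_nonneg_right h7 hq0.le

end Pool.Agent.Q158.Col4
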