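import Pool.Agent.Q158.Col4.Step

/-! The law for all integers of an arbitrary interval. -/

set_option autoImplicit false

namespace Pool.Agent.Q158.Col4

open Finset
open Pool.Agent.TH930.EBQ (ones wd words T iter_eq wd_append wd_length ones_append ones_cons_true
  ones_cons_false ones_nil wd_mem ones_le_length wd_congr)
open Pool.Agent.H320R2.PD (FW FWT wwt Wo)
open Pool.Agent.H499R2.ND (GW cls mem_cls cls_card_le)
open Pool.Agent.Q158.Col3 (PB PB_mono)

lemma Q_mono {c c' : ℝ} (h : c' ≤ c) (hQ : Q c) : Q c' := by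
  intro B
  obtain ⟨δ, C, h1, h2, h3⟩ := hQ B
  refine ⟨δ, C, h1, h2, fun a b hab hs t ht htc => h3 a b hab hs t ht (htc.trans ?_)⟩
  exact mul_le_mul_of_nonneg_right h (by linarith)

/-- the end of the range -/
noncomputable def cI : ℝ := 2 / Real.log (4 / 3)

lemma log43_bounds : 2 / 7 < Real.log (4 / 3) ∧ Real.log (4 / 3) < 3 / 10 := by
  rw [log43_eq]
  have h : Real.log ((3 : ℝ) ^ 29) ≤ Real.log ((2 : ℝ) ^ 46) :=
    Real.log_le_log (by positivity) (by norm_num)
  have h' : Real.log ((2 : ℝ) ^ 19) ≤ Real.log ((3 : ℝ) ^ 12) :=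
    Real.log_le_log (by positivity) (by norm_num)
  rw [Real.log_pow, Real.log_pow] at h h'
  have h1 := Real.log_two_lt_d9
  have h2 := Real.log_two_gt_d9
  push_cast at h h'
  constructor <;> linarith

lemma cI_bounds : 6 / 5 < cI ∧ cI < 7 := by
  obtain ⟨h1, h2⟩ := log43_bounds
  unfold cI
  constructor
  · rw [lt_div_iff₀ (by linarith)]; linarith
  · rw [div_lt_iff₀ (by linarith)]; linarith

lemma cI_fix : 1 + kap * cI = cI := by
  obtain ⟨h1, h2⟩ := log43_bounds
  unfold kap cI
  have : Real.log (4 / 3) ≠ 0 := by linarith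
  field_simp
  ring

theorem Q_all {c : ℝ} (hc : c < cI) : Q c := by
  obtain ⟨h1, h2⟩ := cI_bounds
  obtain ⟨h3, h4⟩ := log43_bounds
  have hD : 0 < cI - 6 / 5 := by linarith
  have main : ∀ n : ℕ, Q (cI - (9 / 10) ^ n * (cI - 6 / 5)) := by
    intro n
    induction n with
    | zero =>
      rw [pow_zero, one_mul, show cI - (cI - 6 / 5) = 6 / 5 by ring]
      exact Q_base
    | succ n ih =>
      have hp : (0 : ℝ) < (9 / 10) ^ n := by positivity
      have hp1 : ((9 : ℝ) / 10) ^ n ≤ 1 := pow_le_one₀ (by norm_num) (by norm_num)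
      refine Q_step ?_ ?_ ih
      · nlinarith
      · have hk : kap < 9 / 10 := by unfold kap; linarith
        have e1 : 1 + kap * (cI - (9 / 10) ^ n * (cI - 6 / 5)) =
            cI - kap * ((9 / 10) ^ n * (cI - 6 / 5)) := by
          have := cI_fix
          linear_combination this
        rw [e1, pow_succ]
        have : 0 < (9 / 10 : ℝ) ^ n * (cI - 6 / 5) := by positivity
        nlinarith
  obtain ⟨n, hn⟩ := exists_pow_lt_of_lt_one (show 0 < (cI - c) / (cI - 6 / 5) from
    div_pos (by linarith) hD) (show (9 / 10 : ℝ) < 1 by norm_num)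
  refine Q_mono ?_ (main n)
  rw [lt_div_iff₀ hD] at hn
  linarith

/-- all integers, small times -/
theorem direct_all {q t L : ℕ} (hq : 1 ≤ q) (h3 : ¬ 3 ∣ q) (a : ℤ)
    (E : ℕ → ℤ → Prop) (F : Finset ℤ)
    (hF : ∀ x ∈ F, a ≤ x ∧ x < a + L ∧ E (ones (wd 1 t x)) ((T 1)^[t] x % q)) :
    (F.card : ℝ) ≤ L * (Mn t (gg q E) / 2 ^ t) + 2 ^ t * q := by
  classical
  have hq0 : (0 : ℝ) < q := by exact_mod_cast hq
  have h1 : (F.card : ℝ) = ∑ v' ∈ words t, ((F.filter (fun x => wd 1 t x = v')).card : ℝ) := by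
    rw [card_eq_sum_card_fiberwise (t := words t) (f := fun x => wd 1 t x)
      (fun x _ => wd_mem 1 t x)]
    push_cast
    rfl
  rw [h1]
  have h2 : ∀ v' ∈ words t, ((F.filter (fun x => wd 1 t x = v')).card : ℝ) ≤
      (gg q E (ones v') * q) * (L / (2 ^ t * q) + 1) := by
    intro v' _
    set R := (range q).filter (fun r : ℕ => E (ones v') (r : ℤ)) with hR
    have h3' : gg q E (ones v') * q = R.card := by
      unfold gg
      rw [div_mul_cancel₀ _ hq0.ne', hR]
    rw [h3']
    have hmap2 : ∀ x ∈ F.filter (fun x => wd 1 t x = v'), ((T 1)^[t] x % q).toNat ∈ R := by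
      intro x hx
      rw [mem_filter] at hx
      obtain ⟨hxF, hw⟩ := hx
      obtain ⟨-, -, hS⟩ := hF x hxF
      have hnn : 0 ≤ (T 1)^[t] x % q := Int.emod_nonneg _ (by exact_mod_cast hq0.ne')
      have hlt : (T 1)^[t] x % q < q := Int.emod_lt_of_pos _ (by exact_mod_cast hq)
      rw [hR, mem_filter, mem_range]
      refine ⟨by omega, ?_⟩
      rw [hw] at hS
      rwa [Int.toNat_of_nonneg hnn]
    have h4 : ((F.filter (fun x => wd 1 t x = v')).card : ℝ) =
        ∑ r ∈ R, (((F.filter (fun x => wd 1 t x = v')).filter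
          (fun x => ((T 1)^[t] x % q).toNat = r)).card : ℝ) := by
      rw [card_eq_sum_card_fiberwise hmap2]
      push_cast
      rfl
    rw [h4]
    have h5 : ∀ r ∈ R, (((F.filter (fun x => wd 1 t x = v')).filter
          (fun x => ((T 1)^[t] x % q).toNat = r)).card : ℝ) ≤ L / (2 ^ t * q) + 1 := by
      intro r _
      have h6 := class_le (t := t) hq h3 (m := 0) (u := 1) (v := 0) isCoprime_one_left
        (a := a) (b := a + L) (by
          have : (0 : ℝ) ≤ L := Nat.cast_nonneg L
          linarith) ((F.filter (fun x => wd 1 t x = v')).filter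
          (fun x => ((T 1)^[t] x % q).toNat = r)) v' r (by
        intro x hx
        rw [mem_filter, mem_filter] at hx
        obtain ⟨⟨hxF, hw⟩, h8⟩ := hx
        obtain ⟨h9, h10, -⟩ := hF x hxF
        have hnn : 0 ≤ (T 1)^[t] x % q := Int.emod_nonneg _ (by exact_mod_cast hq0.ne')
        refine ⟨⟨by exact_mod_cast h9, by exact_mod_cast h10⟩, by simp, hw, by omega⟩)
      rw [pow_zero, mul_one, show (a : ℝ) + L - a = L by ring] at h6
      exact h6
    refine (sum_le_sum h5).trans (le_of_eq ?_)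
    rw [sum_const, nsmul_eq_mul]
  refine (sum_le_sum h2).trans ?_
  rw [← sum_mul, ← sum_mul, ← Mn_words t (gg q E)]
  have h7 : Mn t (gg q E) ≤ 2 ^ t := Mn_le _ fun k => gg_le _ _ _
  set Z := Mn t (gg q E)
  have hP0 : (0 : ℝ) < 2 ^ t := by positivity
  have e3 : Z * q * (L / (2 ^ t * q) + 1) = L * (Z / 2 ^ t) + Z * q := by
    field_simp
  rw [e3]
  apply add_le_add_right
  exact mul_le_mul_of_nonneg_right h7 hq0.le

/-- the odd parts -/
lemma two_part (J : ℕ) (x : ℤ) : (2 : ℤ) ^ J ∣ x ∨ ∃ j < J, ∃ M : ℤ, Odd M ∧ x = 2 ^ j * M := by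
  induction J generalizing x with
  | zero => left; simp
  | succ J ih =>
    rcases Int.even_or_odd x with h | h
    · obtain ⟨y, rfl⟩ := h
      rcases ih y with h1 | ⟨j, hj, M, hM, rfl⟩
      · left
        rw [← two_mul, pow_succ, mul_comm]
        exact mul_dvd_mul_left 2 h1
      · right
        exact ⟨j + 1, by omega, M, hM, by ring⟩
    · right
      exact ⟨0, by omega, x, h, by simp⟩

lemma wd_double (t : ℕ) (z : ℤ) : ones (wd 1 (t + 1) (2 * z)) = ones (wd 1 t z) := by
  simp only [wd]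
  rw [T_double, show decide (2 * z % 2 = 1) = false by
      rw [decide_eq_false_iff_not]; omega, ones_cons_false]

lemma shift_pow {j t : ℕ} (hj : j ≤ t) (M : ℤ) :
    ones (wd 1 t (2 ^ j * M)) = ones (wd 1 (t - j) M) ∧
      (T 1)^[t] (2 ^ j * M) = (T 1)^[t - j] M := by
  obtain ⟨s, rfl⟩ := Nat.exists_eq_add_of_le hj
  rw [Nat.add_sub_cancel_left]
  obtain ⟨h1, h2⟩ := T_pow j M
  constructor
  · rw [wd_append, ones_append, h1, h2, zero_add]
  · rw [Nat.add_comm, Function.iterate_add_apply, h1]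

lemma card_dvd (J L : ℕ) (a : ℤ) (F : Finset ℤ)
    (hF : ∀ x ∈ F, a ≤ x ∧ x < a + L ∧ (2 : ℤ) ^ J ∣ x) : (F.card : ℝ) ≤ L / 2 ^ J + 1 := by
  have hsub : F ⊆ Pool.Agent.H499R2.ND.ap (a : ℝ) (a + L) (2 ^ J) 0 := by
    intro x hx
    obtain ⟨h1, h2, h3⟩ := hF x hx
    rw [Pool.Agent.H499R2.ND.mem_ap]
    refine ⟨⟨by exact_mod_cast h1, by exact_mod_cast h2⟩, ?_⟩
    rwa [sub_zero]
  have h1 : (F.card : ℝ) ≤ (Pool.Agent.H499R2.ND.ap (a : ℝ) (a + L) (2 ^ J) 0).card := by
    exact_mod_cast card_le_card hsub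
  have h2 := Pool.Agent.H499R2.ND.ap_card_le (a := (a : ℝ)) (b := a + L) (by
    have : (0 : ℝ) ≤ L := Nat.cast_nonneg L
    linarith) (q := 2 ^ J) (by positivity) 0
  push_cast at h2
  rw [show (a : ℝ) + L - a = L by ring] at h2
  linarith

lemma two_pow_le {x : ℝ} (t : ℕ) (h : (t : ℝ) ≤ 6 / 5 * x) (hx : 0 ≤ x) :
    (2 : ℝ) ^ t ≤ Real.exp (832 / 1000 * x) := by
  rw [← Real.rpow_natCast, Real.rpow_def_of_pos (by norm_num)]
  apply Real.exp_le_exp.2
  have h1 := Real.log_two_lt_d9
  have h0 : 0 < Real.log 2 := Real.log_pos (by norm_num)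
  calc Real.log 2 * t ≤ Real.log 2 * (6 / 5 * x) := mul_le_mul_of_nonneg_left h h0.le
    _ ≤ 832 / 1000 * x := by nlinarith

theorem upper {c : ℝ} (hc : c < cI) (hc0 : 6 / 5 ≤ c) (B : ℕ) : ∃ δ C : ℝ, 0 < δ ∧ 0 < C ∧
    ∀ L : ℕ, 2 ≤ L → ∀ (a : ℤ) (t : ℕ), (t : ℝ) ≤ c * Real.log L → ∀ q : ℕ, 1 ≤ q → ¬ 3 ∣ q →
    (q : ℝ) ≤ (L : ℝ) ^ δ → ∀ (E : ℕ → ℤ → Prop) (F : Finset ℤ),
    (∀ x ∈ F, a ≤ x ∧ x < a + L ∧ E (ones (wd 1 t x)) ((T 1)^[t] x % q)) →
    (F.card : ℝ) ≤ L * (Mn t (gg q E) / 2 ^ t + C / Real.log L ^ B) := by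
  classical
  set c₁ : ℝ := (c + cI) / 2 with hc1
  have hcc : c < c₁ := by rw [hc1]; linarith
  have hc1I : c₁ < cI := by rw [hc1]; linarith
  have hc1p : 0 < c₁ := by linarith
  obtain ⟨δ₁, C₁, hδ₁, hC₁, hQ⟩ := Q_all hc1I B
  set X : ℝ := max 1000 ((c₁ / (c₁ - c)) ^ 2) with hX
  have hX1 : 1000 ≤ X := le_max_left _ _
  have hX2 : (c₁ / (c₁ - c)) ^ 2 ≤ X := le_max_right _ _
  have hl2 : 0 < Real.log 2 := Real.log_pos (by norm_num)
  have hl2' := Real.log_two_lt_d9
  obtain ⟨D₁, hD₁⟩ : ∃ D : ℝ, D = B.factorial * 10 ^ B := ⟨_, rfl⟩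
  obtain ⟨D₂, hD₂⟩ : ∃ D : ℝ, D = 2 * ((2 * B).factorial / Real.log 2 ^ (2 * B)) := ⟨_, rfl⟩
  have hD₁0 : 0 < D₁ := by rw [hD₁]; positivity
  have hD₂0 : 0 < D₂ := by rw [hD₂]; positivity
  refine ⟨min (1 / 20) (δ₁ / 2), X ^ B + D₁ + D₂ + C₁ * 2 ^ B, lt_min (by norm_num) (by positivity),
    by positivity, ?_⟩
  intro L hL a t ht q hq h3 hqδ E F hF
  have hLr : (2 : ℝ) ≤ L := by exact_mod_cast hL
  have hL0 : (0 : ℝ) < L := by linarith
  set s := Real.log L with hsd
  have hs0 : 0 < s := Real.log_pos (by linarith)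
  have hsB : 0 < s ^ B := by positivity
  have hexp : Real.exp s = L := Real.exp_log hL0
  have hg0 : 0 ≤ Mn t (gg q E) / 2 ^ t := div_nonneg (Mn_nonneg _ fun k => gg_nonneg _ _ _) (by positivity)
  have hC0 : 0 < C₁ * 2 ^ B := by positivity
  have hXB : 0 < X ^ B := by positivity
  have hqe : ∀ δ' : ℝ, min (1 / 20) (δ₁ / 2) ≤ δ' → (q : ℝ) ≤ Real.exp (δ' * s) := by
    intro δ' h
    refine hqδ.trans ?_
    rw [Real.rpow_def_of_pos hL0]
    apply Real.exp_le_exp.2
    rw [mul_comm]
    exact mul_le_mul_of_nonneg_right h hs0.le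
  rcases le_or_gt s X with hcase | hcase
  · have h1 : (F.card : ℝ) ≤ L := by
      have h2 : F ⊆ Ico a (a + L) := fun x hx => mem_Ico.2 ⟨(hF x hx).1, (hF x hx).2.1⟩
      have h3 := card_le_card h2
      rw [Int.card_Ico, show (a + (L : ℤ) - a).toNat = L by omega] at h3
      exact_mod_cast h3
    have h2 : (1 : ℝ) ≤ (X ^ B + D₁ + D₂ + C₁ * 2 ^ B) / s ^ B := by
      rw [le_div_iff₀ hsB, one_mul]
      have h3 : s ^ B ≤ X ^ B := pow_le_pow_left₀ hs0.le hcase B
      linarith
    calc (F.card : ℝ) ≤ L * 1 := by linarith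
      _ ≤ _ := by
          apply mul_le_mul_of_nonneg_left _ hL0.le
          linarith
  · have hs1000 : 1000 ≤ s := by linarith
    rcases le_or_gt (t : ℝ) (6 / 5 * s) with htt | htt
    · refine (direct_all hq h3 a E F hF).trans ?_
      have h1 := two_pow_le t htt hs0.le
      have h2 := hqe (1 / 20) (min_le_left _ _)
      have h4 : (2 : ℝ) ^ t * q ≤ L * (D₁ / s ^ B) := by
        calc (2 : ℝ) ^ t * q ≤ Real.exp (832 / 1000 * s) * Real.exp (1 / 20 * s) := by gcongr
          _ ≤ Real.exp s * Real.exp (-(1 / 10 * s)) := by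
              rw [← Real.exp_add, ← Real.exp_add]
              apply Real.exp_le_exp.2
              linarith
          _ ≤ L * (D₁ / s ^ B) := by
              rw [hexp]
              apply mul_le_mul_of_nonneg_left _ hL0.le
              refine (exp_decay B (show 0 < 1 / 10 * s by positivity)).trans (le_of_eq ?_)
              rw [hD₁, mul_pow, div_pow, one_pow]
              field_simp
      rw [mul_add]
      apply add_le_add_right
      refine h4.trans ?_
      apply mul_le_mul_of_nonneg_left _ hL0.le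
      apply div_le_div_of_nonneg_right _ hsB.le
      linarith
    · set J := ⌊√ s⌋₊ with hJ
      have hsq0 : 0 < √ s := Real.sqrt_pos.2 hs0
      have hss : √ s * √ s = s := Real.mul_self_sqrt hs0.le
      have hs30 : 30 ≤ √ s := by
        apply Real.le_sqrt_of_sq_le; linarith
      have hJ1 : (J : ℝ) ≤ √ s := Nat.floor_le hsq0.le
      have hJ2 : √ s < J + 1 := Nat.lt_floor_add_one _
      have hJt : J ≤ t := by
        have : (J : ℝ) ≤ t := by nlinarith
        exact_mod_cast this
      -- the parts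
      have hpart : ∀ j < J, ((F.filter (fun x => ∃ M : ℤ, Odd M ∧ x = 2 ^ j * M)).card : ℝ) ≤
          L * ((1 / 2 : ℝ) ^ (j + 1) * (Od (t - j) (gg q E) + C₁ * 2 ^ B / s ^ B)) := by
        intro j hj
        have hjr : (j : ℝ) + 1 ≤ J := by exact_mod_cast hj
        have h2j : (0 : ℝ) < 2 ^ j := by positivity
        have hab : (a : ℝ) / 2 ^ j < ((a : ℝ) + L) / 2 ^ j :=
          div_lt_div_of_pos_right (by linarith) h2j
        have e0 : ((a : ℝ) + L) / 2 ^ j - a / 2 ^ j = L / 2 ^ j := by ring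
        have e1 : Real.log (L / 2 ^ j) = s - j * Real.log 2 := by
          rw [Real.log_div hL0.ne' h2j.ne', Real.log_pow]
        have hjl : (j : ℝ) * Real.log 2 ≤ √ s := by
          have : (0 : ℝ) ≤ j := Nat.cast_nonneg j
          nlinarith
        have hhalf : s / 2 ≤ Real.log (L / 2 ^ j) := by
          rw [e1]; nlinarith
        have h1 := hQ (a / 2 ^ j) ((a + L) / 2 ^ j) hab (by rw [e0]; linarith) (t - j) (by omega) (by
          rw [e0, e1]
          have h5 : ((t - j : ℕ) : ℝ) ≤ t := by exact_mod_cast Nat.sub_le t j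
          have h6 : c₁ * √ s ≤ (c₁ - c) * s := by
            have h7 : c₁ / (c₁ - c) ≤ √ s := by
              apply Real.le_sqrt_of_sq_le
              linarith
            rw [div_le_iff₀ (by linarith)] at h7
            calc c₁ * √ s ≤ (√ s * (c₁ - c)) * √ s := mul_le_mul_of_nonneg_right h7 hsq0.le
              _ = (c₁ - c) * (√ s * √ s) := by ring
              _ = _ := by rw [hss]
          have h8 : c₁ * (j * Real.log 2) ≤ c₁ * √ s := mul_le_mul_of_nonneg_left hjl hc1p.le
          have h9 : c₁ * (s - j * Real.log 2) = c₁ * s - c₁ * (j * Real.log 2) := by ring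
          rw [h9]
          linarith) q hq h3 (by
          rw [e0]
          refine (hqe (δ₁ / 2) (min_le_right _ _)).trans (Real.exp_le_exp.2 ?_)
          calc δ₁ / 2 * s = δ₁ * (s / 2) := by ring
            _ ≤ _ := mul_le_mul_of_nonneg_left hhalf hδ₁.le) E 0 (by
          rw [e0]
          norm_num
          linarith)
        have h2 := h1 1 0 isCoprime_one_left
        rw [e0] at h2
        have h5 : (F.filter (fun x => ∃ M : ℤ, Odd M ∧ x = 2 ^ j * M)).card ≤
            (cls (SS (t - j) q E) (a / 2 ^ j) ((a + L) / 2 ^ j) 0 1 0).card := by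
          apply card_le_card_of_injOn (fun x => x / 2 ^ j)
          · intro x hx
            rw [coe_filter, Set.mem_ofPred_eq] at hx
            obtain ⟨hxF, M, hM, hxM⟩ := hx
            obtain ⟨h6, h7, h8⟩ := hF x hxF
            have h9 : x / 2 ^ j = M := by
              rw [hxM]; exact Int.mul_ediv_cancel_left _ (by positivity)
            rw [mem_coe, mem_cls]
            beta_reduce
            rw [h9]
            have hxr : (x : ℝ) = 2 ^ j * M := by rw [hxM]; push_cast; ring
            have h6r : (a : ℝ) ≤ x := by exact_mod_cast h6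
            have h7r : (x : ℝ) < a + L := by exact_mod_cast h7
            refine ⟨⟨?_, ?_⟩, hM, ?_, by simp⟩
            · rw [div_le_iff₀ h2j]; linarith
            · rw [lt_div_iff₀ h2j]; linarith
            · unfold SS
              rw [Set.mem_ofPred_eq]
              have h10 := shift_pow (show j ≤ t by omega) M
              rw [← hxM] at h10
              rw [← h10.1, ← h10.2]
              exact h8
          · intro x hx y hy hxy
            rw [coe_filter, Set.mem_ofPred_eq] at hx hy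
            obtain ⟨-, M, -, hxM⟩ := hx
            obtain ⟨-, M', -, hyM⟩ := hy
            simp only at hxy
            rw [hxM, hyM, Int.mul_ediv_cancel_left _ (by positivity),
              Int.mul_ediv_cancel_left _ (by positivity)] at hxy
            rw [hxM, hyM, hxy]
        have h6 : ((F.filter (fun x => ∃ M : ℤ, Odd M ∧ x = 2 ^ j * M)).card : ℝ) ≤
            (cls (SS (t - j) q E) (a / 2 ^ j) ((a + L) / 2 ^ j) 0 1 0).card := by exact_mod_cast h5
        refine h6.trans (h2.trans ?_)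
        have h7 : C₁ / Real.log (L / 2 ^ j) ^ B ≤ C₁ * 2 ^ B / s ^ B := by
          have h8 : (s / 2) ^ B ≤ Real.log (L / 2 ^ j) ^ B :=
            pow_le_pow_left₀ (by positivity) hhalf B
          calc C₁ / Real.log (L / 2 ^ j) ^ B ≤ C₁ / (s / 2) ^ B :=
                div_le_div_of_nonneg_left hC₁.le (by positivity) h8
            _ = _ := by rw [div_pow]; field_simp
        have e2 : (L : ℝ) / 2 ^ j / (2 * 3 ^ 0) = L * (1 / 2 : ℝ) ^ (j + 1) := by
          rw [one_div, inv_pow, pow_succ]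
          field_simp
        rw [e2]
        calc (Od (t - j) (gg q E) + C₁ / Real.log (L / 2 ^ j) ^ B) * (L * (1 / 2 : ℝ) ^ (j + 1)) ≤
            (Od (t - j) (gg q E) + C₁ * 2 ^ B / s ^ B) * (L * (1 / 2 : ℝ) ^ (j + 1)) := by gcongr
          _ = _ := by ring
      have hcover : F ⊆ (F.filter (fun x => (2 : ℤ) ^ J ∣ x)) ∪
          (range J).biUnion (fun j => F.filter (fun x => ∃ M : ℤ, Odd M ∧ x = 2 ^ j * M)) := by
        intro x hx
        rw [mem_union, mem_filter, mem_biUnion]
        rcases two_part J x with h | ⟨j, hj, M, hM, hxM⟩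
        · exact Or.inl ⟨hx, h⟩
        · exact Or.inr ⟨j, mem_range.2 hj, mem_filter.2 ⟨hx, M, hM, hxM⟩⟩
      have h1 : (F.card : ℝ) ≤ (F.filter (fun x => (2 : ℤ) ^ J ∣ x)).card +
          ∑ j ∈ range J, ((F.filter (fun x => ∃ M : ℤ, Odd M ∧ x = 2 ^ j * M)).card : ℝ) := by
        have h2 := (card_le_card hcover).trans (card_union_le _ _)
        have h3 := h2.trans (Nat.add_le_add_left card_biUnion_le _)
        exact_mod_cast h3
      have h2 := card_dvd J L a (F.filter (fun x => (2 : ℤ) ^ J ∣ x)) (fun x hx => by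
        rw [mem_filter] at hx
        exact ⟨(hF x hx.1).1, (hF x hx.1).2.1, hx.2⟩)
      have h4 : ∑ j ∈ range J, ((F.filter (fun x => ∃ M : ℤ, Odd M ∧ x = 2 ^ j * M)).card : ℝ) ≤
          L * (Mn t (gg q E) / 2 ^ t + C₁ * 2 ^ B / s ^ B) := by
        refine (sum_le_sum (fun j hj => hpart j (mem_range.1 hj))).trans ?_
        rw [← mul_sum]
        apply mul_le_mul_of_nonneg_left _ hL0.le
        have h5 : ∑ j ∈ range J, (1 / 2 : ℝ) ^ (j + 1) * (Od (t - j) (gg q E) + C₁ * 2 ^ B / s ^ B) =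
            ∑ j ∈ range J, (1 / 2 : ℝ) ^ (j + 1) * Od (t - j) (gg q E) +
              (∑ j ∈ range J, (1 / 2 : ℝ) ^ (j + 1)) * (C₁ * 2 ^ B / s ^ B) := by
          rw [sum_mul, ← sum_add_distrib]
          apply sum_congr rfl
          intro j _
          ring
        rw [h5]
        have h6 := Od_halves hJt (g := gg q E) (fun j => gg_nonneg _ _ _)
        have h7 : ∑ j ∈ range J, (1 / 2 : ℝ) ^ (j + 1) ≤ 1 := by
          have : ∀ n : ℕ, ∑ j ∈ range n, (1 / 2 : ℝ) ^ (j + 1) = 1 - (1 / 2) ^ n := by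
            intro n
            induction n with
            | zero => simp
            | succ n ih => rw [sum_range_succ, ih, pow_succ]; ring
          rw [this]
          have : (0 : ℝ) ≤ (1 / 2) ^ J := by positivity
          linarith
        have h8 : (∑ j ∈ range J, (1 / 2 : ℝ) ^ (j + 1)) * (C₁ * 2 ^ B / s ^ B) ≤
            1 * (C₁ * 2 ^ B / s ^ B) := mul_le_mul_of_nonneg_right h7 (by positivity)
        linarith
      have h5 : (L : ℝ) / 2 ^ J ≤ L * (D₂ / s ^ B) := by
        rw [div_eq_mul_inv]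
        apply mul_le_mul_of_nonneg_left _ hL0.le
        have h6 : ((2 : ℝ) ^ J)⁻¹ ≤ 2 * Real.exp (-(Real.log 2 * √ s)) := by
          rw [Real.exp_neg, ← Real.rpow_def_of_pos (by norm_num)]
          have h7 : (2 : ℝ) ^ (√ s) ≤ 2 * 2 ^ J := by
            have h8 : (2 : ℝ) ^ (√ s) ≤ (2 : ℝ) ^ ((J : ℝ) + 1) :=
              Real.rpow_le_rpow_of_exponent_le (by norm_num) hJ2.le
            rw [Real.rpow_add (by norm_num), Real.rpow_one, Real.rpow_natCast] at h8
            linarith
          rw [← div_eq_mul_inv, le_div_iff₀ (by positivity), inv_mul_le_iff₀ (by positivity)]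
          linarith
        refine h6.trans ?_
        have h7 := exp_decay (2 * B) (show 0 < Real.log 2 * √ s by positivity)
        have h8 : (Real.log 2 * √ s) ^ (2 * B) = Real.log 2 ^ (2 * B) * s ^ B := by
          rw [mul_pow, pow_mul (√ s), sq, hss]
        rw [h8] at h7
        rw [hD₂]
        calc 2 * Real.exp (-(Real.log 2 * √ s)) ≤
            2 * ((2 * B).factorial / (Real.log 2 ^ (2 * B) * s ^ B)) := by linarith
          _ = _ := by field_simp
      have h6 : (1 : ℝ) ≤ L * (D₁ / s ^ B) := by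
        have h7 := exp_decay B hs0
        have h8 : (B.factorial : ℝ) / s ^ B ≤ D₁ / s ^ B := by
          apply div_le_div_of_nonneg_right _ hsB.le
          rw [hD₁]
          have h9 : (1 : ℝ) ≤ 10 ^ B := one_le_pow₀ (by norm_num)
          have h10 : (0 : ℝ) < B.factorial := by positivity
          nlinarith
        have h9 : Real.exp s * Real.exp (-s) = 1 := by rw [← Real.exp_add]; simp
        rw [hexp] at h9
        calc (1 : ℝ) = L * Real.exp (-s) := h9.symm
          _ ≤ L * (D₁ / s ^ B) := mul_le_mul_of_nonneg_left (h7.trans h8) hL0.le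
      have h7 : (L : ℝ) * (Mn t (gg q E) / 2 ^ t + (X ^ B + D₁ + D₂ + C₁ * 2 ^ B) / s ^ B) =
          L * (Mn t (gg q E) / 2 ^ t + C₁ * 2 ^ B / s ^ B) + L * (D₁ / s ^ B) + L * (D₂ / s ^ B) +
            L * (X ^ B / s ^ B) := by ring
      have h8 : 0 ≤ L * (X ^ B / s ^ B) := by positivity
      rw [h7]
      linarith

end Pool.Agent.Q158.Col4
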