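import Pool.Agent.Q158.Col4.Final

/-! The law and its threshold. -/

set_option autoImplicit false

namespace Pool.Agent.Q158.Col4

open Finset
open Pool.Agent.TH930.EBQ (ones wd words T iter_eq wd_append wd_length ones_append ones_cons_true
  ones_cons_false ones_nil wd_mem ones_le_length wd_congr cw)

/-- the number of odd terms among the first `t` -/
def odds (t : ℕ) (x : ℤ) : ℕ := ((range t).filter (fun i => (T 1)^[i] x % 2 = 1)).card

lemma ones_wd (t : ℕ) (x : ℤ) : ones (wd 1 t x) = odds t x := by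
  induction t with
  | zero => simp [wd, odds]
  | succ t ih =>
    rw [wd_append, ones_append, ih]
    unfold odds
    rw [range_add_one, filter_insert]
    rcases Int.emod_two_eq_zero_or_one ((T 1)^[t] x) with h | h
    · rw [if_neg (by omega)]
      simp [wd, h]
    · rw [if_pos h, card_insert_of_notMem (by simp)]
      simp [wd, h]

/-- the model probability of the event `E` -/
noncomputable def model (t q : ℕ) (E : ℕ → ℤ → Prop) : ℝ :=
  ∑ k ∈ range (t + 1), (t.choose k : ℝ) / 2 ^ t * (({r : ℕ | r < q ∧ E k r}.ncard : ℝ) / q)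

lemma model_eq (t q : ℕ) (E : ℕ → ℤ → Prop) : Mn t (gg q E) / 2 ^ t = model t q E := by
  classical
  rw [Mn_choose, sum_div]
  unfold model
  apply sum_congr rfl
  intro k _
  have h : (({r : ℕ | r < q ∧ E k r}.ncard : ℝ) / q) = gg q E k := by
    unfold gg
    congr 2
    rw [← Set.ncard_coe_finset]
    congr 1
    ext r
    rw [coe_filter]
    simp
  rw [h]
  ring

theorem law {η : ℝ} (hη : 0 < η) (B : ℕ) : ∃ δ C : ℝ, 0 < δ ∧ 0 < C ∧
    ∀ L : ℕ, 2 ≤ L → ∀ (a : ℤ) (t : ℕ), (t : ℝ) ≤ (cI - η) * Real.log L → ∀ q : ℕ, 1 ≤ q → ¬ 3 ∣ q →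
    (q : ℝ) ≤ (L : ℝ) ^ δ → ∀ E : ℕ → ℤ → Prop,
    |({x : ℤ | a ≤ x ∧ x < a + L ∧ E (odds t x) ((T 1)^[t] x % q)}.ncard : ℝ) / L - model t q E| ≤
      C / Real.log L ^ B := by
  classical
  obtain ⟨h1, h2⟩ := cI_bounds
  obtain ⟨δ, C, hδ, hC, hup⟩ := upper (c := max (6 / 5) (cI - η)) (max_lt h1 (by linarith))
    (le_max_left _ _) B
  refine ⟨δ, C, hδ, hC, ?_⟩
  intro L hL a t ht q hq h3 hqδ E
  have hLr : (2 : ℝ) ≤ L := by exact_mod_cast hL
  have hL0 : (0 : ℝ) < L := by linarith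
  have hs0 : 0 < Real.log L := Real.log_pos (by linarith)
  have ht' : (t : ℝ) ≤ max (6 / 5) (cI - η) * Real.log L :=
    ht.trans (mul_le_mul_of_nonneg_right (le_max_right _ _) hs0.le)
  set F := (Ico a (a + L)).filter (fun x => E (odds t x) ((T 1)^[t] x % q)) with hF
  set F' := (Ico a (a + L)).filter (fun x => ¬ E (odds t x) ((T 1)^[t] x % q)) with hF'
  have hcard : ({x : ℤ | a ≤ x ∧ x < a + L ∧ E (odds t x) ((T 1)^[t] x % q)}.ncard : ℝ) = F.card := by
    rw [← Set.ncard_coe_finset, hF]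
    congr 2
    ext x
    rw [coe_filter]
    simp only [mem_Ico, Set.mem_ofPred_eq]
    tauto
  have hsum : (F.card : ℝ) + F'.card = L := by
    have h4 := card_filter_add_card_filter_not (s := Ico a (a + (L : ℤ)))
      (fun x => E (odds t x) ((T 1)^[t] x % q))
    rw [Int.card_Ico, show (a + (L : ℤ) - a).toNat = L by omega] at h4
    exact_mod_cast h4
  have hu1 := hup L hL a t ht' q hq h3 hqδ E F (fun x hx => by
    rw [hF, mem_filter, mem_Ico] at hx
    rw [ones_wd]
    exact ⟨hx.1.1, hx.1.2, hx.2⟩)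
  have hu2 := hup L hL a t ht' q hq h3 hqδ (fun k r => ¬ E k r) F' (fun x hx => by
    rw [hF', mem_filter, mem_Ico] at hx
    rw [ones_wd]
    exact ⟨hx.1.1, hx.1.2, hx.2⟩)
  have hmod : Mn t (gg q E) / 2 ^ t + Mn t (gg q (fun k r => ¬ E k r)) / 2 ^ t = 1 := by
    rw [← add_div, ← Mn_add]
    have : (fun k => gg q E k + gg q (fun k r => ¬ E k r) k) = (fun _ => (1 : ℝ)) := by
      funext k
      exact gg_compl hq E k
    rw [this, Mn_const, mul_one, div_self (by positivity)]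
  rw [hcard, ← model_eq, abs_le]
  set m1 := Mn t (gg q E) / 2 ^ t
  set m2 := Mn t (gg q (fun k r => ¬ E k r)) / 2 ^ t
  set e := C / Real.log L ^ B
  constructor
  · rw [le_sub_iff_add_le, le_div_iff₀ hL0]
    have h5 : (L : ℝ) = L * (m1 + m2) := by rw [hmod, mul_one]
    nlinarith
  · rw [sub_le_iff_le_add, div_le_iff₀ hL0]
    nlinarith

lemma T_neg {x : ℤ} (hx : x < 0) : T 1 x < 0 := by
  unfold T
  split_ifs <;> omega

lemma T_iter_neg {x : ℤ} (hx : x < 0) (t : ℕ) : (T 1)^[t] x < 0 := by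
  induction t generalizing x with
  | zero => exact hx
  | succ t ih => rw [Function.iterate_succ_apply]; exact ih (T_neg hx)

lemma thr_odds {L M t : ℕ} {n : ℤ} (ht : t ≤ M) (h1 : 2 ^ M ≤ n + L) (h2 : n < 2 ^ M) :
    (2 : ℝ) ^ t ≤ 3 ^ odds t n * L := by
  set z : ℤ := n - 2 ^ M with hz
  have hz0 : z < 0 := by omega
  have hw : wd 1 t n = wd 1 t z := wd_congr odd1' (by
    rw [hz, sub_sub_cancel]; exact pow_dvd_pow 2 ht)
  have i2 := iter_eq odd1' t z
  rw [← hw, ones_wd] at i2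
  have hneg := T_iter_neg hz0 t
  have hp : (0 : ℤ) < 2 ^ t := by positivity
  have hc0 : (0 : ℤ) ≤ cw (wd 1 t n) := Int.natCast_nonneg _
  have h3 : (2 : ℤ) ^ t ≤ 3 ^ odds t n * (-z) := by
    have h4 : (2 : ℤ) ^ t * (T 1)^[t] z ≤ 2 ^ t * (-1) := mul_le_mul_of_nonneg_left (by omega) hp.le
    rw [i2] at h4
    linarith
  have h4 : (3 : ℤ) ^ odds t n * (-z) ≤ 3 ^ odds t n * L :=
    mul_le_mul_of_nonneg_left (by omega) (by positivity)
  exact_mod_cast h3.trans h4

theorem threshold {η : ℝ} (hη : 0 < η) : ∃ θ : ℝ, 0 < θ ∧ ∃ L₀ : ℕ, ∀ L ≥ L₀, ∀ M : ℕ,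
    (cI + η) * Real.log L ≤ M → ∃ s : ℕ, (s : ℝ) ≤ (cI + η) * Real.log L ∧
      (1 / 2 + θ) * L ≤ ({n : ℤ | 2 ^ M - (L : ℤ) ≤ n ∧ n < 2 ^ M ∧ (T 1)^[s] n % 2 = 1}.ncard : ℝ) := by
  classical
  have hl2 : 0 < Real.log 2 := Real.log_pos (by norm_num)
  have hl3 : 0 < Real.log 3 := Real.log_pos (by norm_num)
  obtain ⟨h43, h43'⟩ := log43_bounds
  obtain ⟨hc1, hc2⟩ := cI_bounds
  have hcI : 1 / cI = Real.log 2 - Real.log 3 / 2 := by
    have e := log43_eq
    unfold cI
    rw [one_div_div, e]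
    ring
  refine ⟨(1 / cI - 1 / (cI + η / 2)) / Real.log 3, ?_, ?_⟩
  · apply div_pos _ hl3
    rw [sub_pos]
    apply one_div_lt_one_div_of_lt (by linarith) (by linarith)
  have htend : Filter.Tendsto (fun L : ℕ => Real.log (L : ℝ)) Filter.atTop Filter.atTop :=
    Real.tendsto_log_atTop.comp tendsto_natCast_atTop_atTop
  obtain ⟨L₀, hL₀⟩ := Filter.eventually_atTop.1
    ((htend.eventually_ge_atTop (2 / η)).and (Filter.eventually_ge_atTop 2))
  refine ⟨L₀, fun L hL M hM => ?_⟩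
  obtain ⟨hLη, hL2⟩ := hL₀ L hL
  have hLr : (2 : ℝ) ≤ L := by exact_mod_cast hL2
  have hL0 : (0 : ℝ) < L := by linarith
  set s := Real.log L with hsd
  have hs0 : 0 < s := Real.log_pos (by linarith)
  set t := ⌊(cI + η) * s⌋₊ with ht
  have ht1 : (t : ℝ) ≤ (cI + η) * s := Nat.floor_le (by positivity)
  have ht2 : (cI + η) * s < t + 1 := Nat.lt_floor_add_one _
  have hηs : 1 ≤ η / 2 * s := by
    rw [div_le_iff₀ hη] at hLη
    linarith
  have ht3 : (cI + η / 2) * s ≤ t := by linarith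
  have ht0 : (0 : ℝ) < t := lt_of_lt_of_le (by positivity) ht3
  have htM : t ≤ M := by
    have : (t : ℝ) ≤ M := ht1.trans hM
    exact_mod_cast this
  set I := Ico ((2 : ℤ) ^ M - L) (2 ^ M) with hI
  have hIc : (I.card : ℝ) = L := by
    rw [hI, Int.card_Ico, show ((2 : ℤ) ^ M - (2 ^ M - L)).toNat = L by omega]
  -- the sum of the numbers of odd steps
  have hsum : ∑ n ∈ I, (odds t n : ℝ) = ∑ i ∈ range t, ((I.filter (fun n => (T 1)^[i] n % 2 = 1)).card : ℝ) := by
    have h1 : ∀ n ∈ I, (odds t n : ℝ) = ∑ i ∈ range t, (if (T 1)^[i] n % 2 = 1 then (1 : ℝ) else 0) := by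
      intro n _
      unfold odds
      rw [card_filter]
      push_cast
      rfl
    rw [sum_congr rfl h1, sum_comm]
    apply sum_congr rfl
    intro i _
    rw [card_filter]
    push_cast
    rfl
  have hlow : ∀ n ∈ I, (t * Real.log 2 - s) / Real.log 3 ≤ odds t n := by
    intro n hn
    rw [hI, mem_Ico] at hn
    have h1 := thr_odds htM (show (2 : ℤ) ^ M ≤ n + L by linarith [hn.1]) hn.2
    have h2 := Real.log_le_log (by positivity) h1
    rw [Real.log_mul (by positivity) hL0.ne', Real.log_pow, Real.log_pow] at h2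
    rw [div_le_iff₀ hl3]
    linarith
  have hsum2 : L * ((t * Real.log 2 - s) / Real.log 3) ≤ ∑ n ∈ I, (odds t n : ℝ) := by
    have := card_nsmul_le_sum I (fun n => (odds t n : ℝ)) _ hlow
    rw [nsmul_eq_mul, hIc] at this
    exact this
  rw [hsum] at hsum2
  by_contra hcon
  push Not at hcon
  have h5 : ∀ i ∈ range t, ((I.filter (fun n => (T 1)^[i] n % 2 = 1)).card : ℝ) <
      (1 / 2 + (1 / cI - 1 / (cI + η / 2)) / Real.log 3) * L := by
    intro i hi
    rw [mem_range] at hi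
    have hir : (i : ℝ) ≤ t := by exact_mod_cast hi.le
    have h6 := hcon i (hir.trans ht1)
    refine lt_of_eq_of_lt ?_ h6
    rw [← Set.ncard_coe_finset]
    congr 2
    ext n
    rw [coe_filter, hI]
    simp only [mem_Ico, Set.mem_ofPred_eq]
    tauto
  have htN : 0 < t := by exact_mod_cast ht0
  have h6 := sum_lt_sum_of_nonempty (nonempty_range_iff.2 htN.ne') h5
  rw [sum_const, card_range, nsmul_eq_mul] at h6
  have h7 := hsum2.trans_lt h6
  have h8 : s / t ≤ 1 / (cI + η / 2) := by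
    rw [div_le_div_iff₀ ht0 (by linarith)]
    linarith
  have h9 : (1 / 2 + (1 / cI - 1 / (cI + η / 2)) / Real.log 3) ≤
      (Real.log 2 - s / t) / Real.log 3 := by
    rw [hcI, le_div_iff₀ hl3]
    have : (1 / 2 + (Real.log 2 - Real.log 3 / 2 - 1 / (cI + η / 2)) / Real.log 3) * Real.log 3 =
      Real.log 2 - 1 / (cI + η / 2) := by
      field_simp
      ring
    rw [this]
    linarith
  have h10 : (t : ℝ) * ((1 / 2 + (1 / cI - 1 / (cI + η / 2)) / Real.log 3) * L) ≤
      L * ((t * Real.log 2 - s) / Real.log 3) := by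
    have h11 : (t : ℝ) * ((1 / 2 + (1 / cI - 1 / (cI + η / 2)) / Real.log 3) * L) ≤
        t * ((Real.log 2 - s / t) / Real.log 3 * L) := by gcongr
    refine h11.trans (le_of_eq ?_)
    field_simp
  linarith

end Pool.Agent.Q158.Col4
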