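import Pool.Agent.Q158.Col4.Law

/-! The law for the odd integers of an arbitrary window. -/

set_option autoImplicit false

namespace Pool.Agent.Q158.Col4

open Finset
open Pool.Agent.TH930.EBQ (ones wd words T iter_eq wd_append wd_length ones_append ones_cons_true
  ones_cons_false ones_nil)
open Pool.Agent.H320R2.PD (FW FWT wwt Wo)
open Pool.Agent.H499R2.ND (GW cls mem_cls cls_card_le Vw cls_unit cop_two_pow next_scale err_bound
  Vw_snoc dev Err)
open Pool.Agent.Q158.Col3 (PB Err2 star mass_le_one err2_le PB_mono)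

/-- one stage, with a bound which depends on the size of the word -/
theorem stage2 {d : ℤ} (hd : Odd d) (hd3 : IsCoprime d 3) {S : Set ℤ} {S' : ℕ → Set ℤ} {a b : ℝ}
    (hab : a < b) {k m m' Tl Tm : ℕ} (hk : 1 ≤ k) (hm' : m' ≤ k) (hTm : 20 * Tm ≤ 41 * k)
    (hS : ∀ (w : List ℕ) (M x : ℤ), w.length = k → (∀ e ∈ w, 1 ≤ e) → Tl ≤ w.sum → w.sum ≤ Tm →
      Odd M → Odd x → M ∈ S → Vw d w M x → x ∈ S' w.sum)
    {ρ : ℕ → ℝ}
    (h : ∀ T : ℕ, Tl ≤ T → T ≤ Tm → PB (S' T) (a * 3 ^ k / 2 ^ T) (b * 3 ^ k / 2 ^ T) m' (ρ T)) :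
    PB S a b m (∑ w ∈ GW (3 * k) k Tl Tm, wwt w * ρ w.sum + Err2 d (b - a) k m m' Tl Tm) := by
  intro u v hu
  obtain ⟨c, hc⟩ := cls_unit S a b m hu v
  rw [hc]
  set A := b - a with hA
  have hA0 : 0 < A := by rw [hA]; linarith
  have hTm' : Tm ≤ k * (3 * k) := by nlinarith
  have h1 := star hd hd3 hab.le (3 * k) k m m' Tl Tm hk hm' hTm' hS c
  rw [← hA] at h1
  set G := GW (3 * k) k Tl Tm with hG
  have h2 : ∑ w ∈ G, ((cls (S' w.sum) (a * 3 ^ k / 2 ^ w.sum) (b * 3 ^ k / 2 ^ w.sum) m'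
            (2 ^ w.sum) (d * Wo w)).card : ℝ) ≤ ∑ w ∈ G, (A * 3 ^ k / (2 * 3 ^ m')) * (wwt w * ρ w.sum) := by
    apply sum_le_sum
    intro w hw
    rw [hG] at hw; unfold GW at hw; rw [mem_filter] at hw
    have h3 := h w.sum hw.2.1 hw.2.2 (2 ^ w.sum) (d * Wo w) (cop_two_pow _)
    refine h3.trans (le_of_eq ?_)
    unfold wwt
    rw [one_div, inv_pow, hA]
    field_simp
  rw [← mul_sum] at h2
  set R := ∑ w ∈ G, wwt w * ρ w.sum with hR
  have h4 : (∑ w ∈ G, ((cls (S' w.sum) (a * 3 ^ k / 2 ^ w.sum) (b * 3 ^ k / 2 ^ w.sum) m'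
            (2 ^ w.sum) (d * Wo w)).card : ℝ)) / 3 ^ (k + m - m') ≤ R * (A / (2 * 3 ^ m)) := by
    rw [div_le_iff₀ (by positivity)]
    refine h2.trans (le_of_eq ?_)
    have h6 : (3 : ℝ) ^ (k + m - m') * 3 ^ m' = 3 ^ k * 3 ^ m := by
      rw [← pow_add, ← pow_add]; congr 1; omega
    have h7 : (3 : ℝ) ^ k = 3 ^ (k + m - m') * 3 ^ m' / 3 ^ m := by
      rw [h6]; field_simp
    rw [h7]
    field_simp
  have hfac : A / (2 * 3 ^ m) * (2 * 3 ^ m / A) = 1 := by
    field_simp
  have hEq : (R + Err2 d A k m m' Tl Tm) * (A / (2 * 3 ^ m)) = R * (A / (2 * 3 ^ m))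
      + (A / (2 * 3 ^ m) + 2 ^ Tm)
          * (∑ T ∈ range (k * (3 * k) + 1), dev (FWT (3 * k) k T) wwt (fun w => (Wo w : ℤ)) (k + m) m')
      + A / (2 * 3 ^ m) * (1 - ∑ w ∈ G, wwt w) + 1 + (|(d : ℝ)| + 2) * 2 ^ Tm := by
    unfold Err2
    rw [← hG]
    set δ := ∑ T ∈ range (k * (3 * k) + 1), dev (FWT (3 * k) k T) wwt (fun w => (Wo w : ℤ)) (k + m) m'
    set X := (2 : ℝ) ^ Tm
    set Y := A / (2 * 3 ^ m) with hY
    set Z := 2 * 3 ^ m / A with hZ
    set μ := ∑ w ∈ G, wwt w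
    have : (R + ((1 + X * Z) * δ + (1 - μ) + (1 + (|(d : ℝ)| + 2) * X) * Z)) * Y
        = R * Y + (Y + X * (Y * Z)) * δ + Y * (1 - μ) + (1 + (|(d : ℝ)| + 2) * X) * (Y * Z) := by ring
    rw [this, hfac]
    ring
  rw [hEq]
  linarith

lemma T_double (z : ℤ) : T 1 (2 * z) = z := by
  unfold T
  rw [if_pos (by omega)]
  omega

lemma T_pow (e : ℕ) (z : ℤ) : (T 1)^[e] (2 ^ e * z) = z ∧ ones (wd 1 e (2 ^ e * z)) = 0 := by
  induction e with
  | zero => simp [wd]
  | succ e ih =>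
    have e1 : (2 : ℤ) ^ (e + 1) * z = 2 * (2 ^ e * z) := by ring
    rw [Function.iterate_succ_apply, e1, T_double]
    refine ⟨ih.1, ?_⟩
    simp only [wd]
    rw [T_double, show decide (2 * (2 ^ e * z) % 2 = 1) = false by
      rw [decide_eq_false_iff_not]; omega, ones_cons_false]
    exact ih.2

lemma word_T (w : List ℕ) : (∀ a ∈ w, 1 ≤ a) → ∀ M y : ℤ, Odd M → Odd y →
    Vw 1 w M y → (T 1)^[w.sum] M = y ∧ ones (wd 1 w.sum M) = w.length := by
  induction w using List.reverseRecOn with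
  | nil =>
    intro _ M y _ _ h
    unfold Vw at h
    simp [Wo] at h
    simp [wd, h]
  | append_singleton u e ih =>
    intro hw M y hM hy h
    have hu : ∀ a ∈ u, 1 ≤ a := fun a ha => hw a (by simp [ha])
    have he : 1 ≤ e := hw e (by simp)
    obtain ⟨M₁, hM₁, h1, h2⟩ := Vw_snoc odd_one hu hy h
    obtain ⟨h3, h4⟩ := ih hu M₁ y hM₁ hy h2
    obtain ⟨e', rfl⟩ := Nat.exists_eq_add_of_le' he
    have hTM : T 1 M = 2 ^ e' * M₁ := by
      unfold T
      have := Int.odd_iff.1 hM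
      rw [if_neg (by omega), h1, pow_succ, show (2 : ℤ) ^ e' * 2 * M₁ = 2 * (2 ^ e' * M₁) by ring,
        Int.mul_ediv_cancel_left _ (by norm_num)]
    have h5 : (T 1)^[e' + 1] M = M₁ := by
      rw [Function.iterate_succ_apply, hTM, (T_pow e' M₁).1]
    have h6 : ones (wd 1 (e' + 1) M) = 1 := by
      simp only [wd]
      rw [hTM, show decide (M % 2 = 1) = true by simp [Int.odd_iff.1 hM], ones_cons_true,
        (T_pow e' M₁).2]
    rw [List.sum_append, List.length_append, List.sum_singleton, List.length_singleton]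
    constructor
    · rw [Function.iterate_add_apply, h5, h3]
    · rw [Nat.add_comm u.sum, wd_append, ones_append, h5, h6, h4]
      ring

/-- `SS` after the first `T` steps -/
lemma SS_shift {t q k : ℕ} {E : ℕ → ℤ → Prop} {w : List ℕ} (hw : ∀ a ∈ w, 1 ≤ a)
    (hl : w.length = k) (ht : w.sum ≤ t) {M x : ℤ} (hM : Odd M) (hx : Odd x) (hV : Vw 1 w M x)
    (hS : M ∈ SS t q E) : x ∈ SS (t - w.sum) q (fun j r => E (j + k) r) := by
  obtain ⟨h1, h2⟩ := word_T w hw M x hM hx hV
  unfold SS at hS ⊢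
  rw [Set.mem_ofPred_eq] at hS ⊢
  obtain ⟨s, rfl⟩ := Nat.exists_eq_add_of_le ht
  rw [wd_append, ones_append, h2, h1, hl, Nat.add_comm w.sum s, Function.iterate_add_apply, h1,
    Nat.add_comm k] at hS
  rw [Nat.add_sub_cancel_left]
  exact hS

lemma exp_decay (B : ℕ) {y : ℝ} (hy : 0 < y) : Real.exp (-y) ≤ B.factorial / y ^ B := by
  have h := Real.pow_div_factorial_le_exp y hy.le B
  rw [Real.exp_neg, le_div_iff₀ (by positivity), inv_mul_le_iff₀ (Real.exp_pos _), ← div_le_iff₀ (by positivity)]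
  exact h

theorem err_rho (B : ℕ) {ρ : ℝ} (hρ0 : 0 < ρ) (hρ1 : ρ ≤ 1 / 20) : ∃ C : ℝ, 0 < C ∧
    ∀ A : ℝ, 0 < A → 1000 ≤ Real.log A →
    ∀ k m m' : ℕ, (m : ℝ) ^ 2 ≤ Real.log A → k = ⌊Real.log A / 2⌋₊ →
    m' = ⌊Real.sqrt (0.8 * Real.log A)⌋₊ →
    Err2 1 A k m m' (2 * k - ⌊ρ * k⌋₊) (2 * k + ⌊ρ * k⌋₊) ≤ C / Real.log A ^ B := by
  obtain ⟨C, hC, herr⟩ := err_bound B 1
  refine ⟨C + 2 * (B.factorial * (128 / ρ ^ 2) ^ B), by positivity, ?_⟩
  intro A hA ht k m m' hm hk hm'
  have h1 := herr A hA ht k m m' hm hk hm'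
  set t := Real.log A with htd
  have ht0 : 0 < t := by linarith
  have hk1 : (k : ℝ) ≤ t / 2 := by rw [hk]; exact Nat.floor_le (by linarith)
  have hk2 : t / 2 - 1 ≤ k := by rw [hk]; linarith [Nat.lt_floor_add_one (t / 2)]
  have hk0 : (0 : ℝ) < k := by linarith
  have hk2N : 2 ≤ k := by
    have : (2 : ℝ) ≤ k := by linarith
    exact_mod_cast this
  set r := ⌊ρ * k⌋₊ with hr
  have hrk : (r : ℝ) ≤ ρ * k := Nat.floor_le (by positivity)
  have hr20 : 20 * r ≤ k := by
    have : (20 : ℝ) * r ≤ k := by nlinarith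
    exact_mod_cast this
  have h2 := err2_le (d := 1) hA (m := m) (m' := m') hr20 hk2N
  have h4 : ρ * k < (r : ℝ) + 1 := Nat.lt_floor_add_one _
  have hy : 0 < ρ ^ 2 / 128 * t := by positivity
  have h5 : ρ ^ 2 / 128 * t ≤ ((r : ℝ) + 1) ^ 2 / (32 * k) := by
    rw [le_div_iff₀ (by positivity)]
    have h6 : (ρ * k) ^ 2 ≤ ((r : ℝ) + 1) ^ 2 := pow_le_pow_left₀ (by positivity) h4.le 2
    refine le_trans ?_ h6
    have h7 : t / 4 ≤ k := by linarith
    calc ρ ^ 2 / 128 * t * (32 * k) = ρ ^ 2 * (t / 4) * k := by ring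
      _ ≤ ρ ^ 2 * k * k := by gcongr
      _ = _ := by ring
  have h6 : Real.exp (-(((r : ℝ) + 1) ^ 2 / (32 * k))) ≤ B.factorial / (ρ ^ 2 / 128 * t) ^ B :=
    (Real.exp_le_exp.2 (by linarith)).trans (exp_decay B hy)
  have e1 : (B.factorial : ℝ) / (ρ ^ 2 / 128 * t) ^ B = B.factorial * (128 / ρ ^ 2) ^ B / t ^ B := by
    rw [mul_pow, div_pow, div_pow]
    field_simp
  rw [e1] at h6
  calc Err2 1 A k m m' (2 * k - r) (2 * k + r) ≤ C / t ^ B +
        2 * (B.factorial * (128 / ρ ^ 2) ^ B / t ^ B) := by linarith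
    _ = _ := by ring

/-- the law up to the time `c log A` -/
def Q (c : ℝ) : Prop := ∀ B : ℕ, ∃ δ C : ℝ, 0 < δ ∧ 0 < C ∧ ∀ a b : ℝ, a < b →
  1 ≤ Real.log (b - a) → ∀ t : ℕ, 1 ≤ t → (t : ℝ) ≤ c * Real.log (b - a) → ∀ q : ℕ, 1 ≤ q →
  ¬ 3 ∣ q → (q : ℝ) ≤ Real.exp (δ * Real.log (b - a)) → ∀ (E : ℕ → ℤ → Prop) (m : ℕ),
  (m : ℝ) ^ 2 ≤ Real.log (b - a) →
  PB (SS t q E) a b m (Od t (gg q E) + C / Real.log (b - a) ^ B)

lemma log3_lt : Real.log 3 ≤ 11 / 10 := by
  have h : Real.log ((3 : ℝ) ^ 29) ≤ Real.log ((2 : ℝ) ^ 46) :=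
    Real.log_le_log (by positivity) (by norm_num)
  rw [Real.log_pow, Real.log_pow] at h
  have := Real.log_two_lt_d9
  push_cast at h
  linarith

theorem Q_base : Q (6 / 5) := by
  intro B
  refine ⟨1 / 20, Real.exp 17 * (B.factorial * 10 ^ B), by norm_num, by positivity, ?_⟩
  intro a b hab hs t ht htc q hq h3 hqδ E m hm
  have hba : 0 < b - a := by linarith
  set s := Real.log (b - a) with hsd
  have hs0 : 0 < s := by linarith
  have hexp : Real.exp s = b - a := Real.exp_log hba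
  refine PB_mono hab.le ?_ (direct hq h3 ht hab E)
  apply add_le_add_right
  have h2t : (2 : ℝ) ^ t ≤ Real.exp (832 / 1000 * s) := by
    rw [← Real.rpow_natCast, Real.rpow_def_of_pos (by norm_num)]
    apply Real.exp_le_exp.2
    have h1 := Real.log_two_lt_d9
    have h0 : 0 < Real.log 2 := Real.log_pos (by norm_num)
    calc Real.log 2 * t ≤ Real.log 2 * (6 / 5 * s) := mul_le_mul_of_nonneg_left htc h0.le
      _ ≤ 832 / 1000 * s := by nlinarith
  have h3m : (3 : ℝ) ^ m ≤ Real.exp (18 / 1000 * s + 17) := by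
    rw [← Real.rpow_natCast, Real.rpow_def_of_pos (by norm_num)]
    apply Real.exp_le_exp.2
    have h1 := log3_lt
    have h0 : (0 : ℝ) ≤ m := Nat.cast_nonneg m
    have h2 : Real.log 3 * m ≤ 11 / 10 * m := mul_le_mul_of_nonneg_right h1 h0
    nlinarith [sq_nonneg ((m : ℝ) * (18 / 1000) - 11 / 20)]
  have hprod : (2 : ℝ) ^ t * 3 ^ m * q ≤ Real.exp (-(1 / 10 * s)) * Real.exp 17 * (b - a) := by
    calc (2 : ℝ) ^ t * 3 ^ m * q ≤ Real.exp (832 / 1000 * s) * Real.exp (18 / 1000 * s + 17) *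
          Real.exp (1 / 20 * s) := by gcongr
      _ = Real.exp (-(1 / 10 * s)) * Real.exp 17 * Real.exp s := by
          rw [← Real.exp_add, ← Real.exp_add, ← Real.exp_add, ← Real.exp_add]
          congr 1
          ring
      _ = _ := by rw [hexp]
  have hd := exp_decay B (show 0 < 1 / 10 * s by positivity)
  calc (2 : ℝ) ^ t * 3 ^ m * q / (b - a) ≤ Real.exp (-(1 / 10 * s)) * Real.exp 17 := by
        rw [div_le_iff₀ hba]; exact hprod
    _ ≤ (B.factorial / (1 / 10 * s) ^ B) * Real.exp 17 :=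
        mul_le_mul_of_nonneg_right hd (Real.exp_pos _).le
    _ = _ := by
        rw [mul_pow, div_pow, one_pow]
        field_simp

/-- the trivial bound -/
lemma PB_triv {S : Set ℤ} {a b : ℝ} (hab : a < b) (hs : 1 ≤ Real.log (b - a)) {X : ℝ}
    (hX : Real.log (b - a) ≤ X) {m : ℕ} (hm : (m : ℝ) ^ 2 ≤ Real.log (b - a)) :
    PB S a b m (1 + (3 : ℝ) ^ X) := by
  intro u v hu
  have h1 := cls_card_le S hab.le m hu v
  refine h1.trans ?_
  have hba : 0 < b - a := by linarith
  have h2 : (2 : ℝ) ≤ b - a := by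
    have h3 := Real.exp_le_exp.2 hs
    rw [Real.exp_log hba] at h3
    have := Real.add_one_le_exp (1 : ℝ)
    linarith
  have hmX : (m : ℝ) ≤ X := by
    have h0 : (0 : ℝ) ≤ m := Nat.cast_nonneg m
    rcases le_or_gt (m : ℝ) 1 with h | h
    · linarith
    · nlinarith
  have h3 : (3 : ℝ) ^ m ≤ (3 : ℝ) ^ X := by
    rw [← Real.rpow_natCast]
    exact Real.rpow_le_rpow_of_exponent_le (by norm_num) hmX
  have h4 : (1 : ℝ) ≤ (3 : ℝ) ^ X * ((b - a) / (2 * 3 ^ m)) := by
    rw [mul_div_assoc', le_div_iff₀ (by positivity), one_mul]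
    calc (2 : ℝ) * 3 ^ m ≤ (b - a) * (3 : ℝ) ^ X := by gcongr
      _ = _ := by ring
  linarith

/-- `κ = 1 - log (4/3) / 2` -/
noncomputable def kap : ℝ := 1 - Real.log (4 / 3) / 2

lemma log43_eq : Real.log (4 / 3) = 2 * Real.log 2 - Real.log 3 := by
  rw [Real.log_div (by norm_num) (by norm_num), show (4 : ℝ) = 2 ^ 2 by norm_num, Real.log_pow]
  push_cast
  ring

theorem Q_step {c c' : ℝ} (hc0 : 0 ≤ c) (hc' : c' < 1 + kap * c) (hQ : Q c) : Q c' := by
  intro B
  obtain ⟨δ₁, C₁, hδ₁, hC₁, hQ1⟩ := hQ B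
  obtain ⟨δ₀, C₀, hδ₀, hC₀, hQ0⟩ := Q_base B
  set ζ := 1 + kap * c - c' with hζ
  have hζ0 : 0 < ζ := by rw [hζ]; linarith
  set ρ : ℝ := min (1 / 20) (ζ / (1 + c)) with hρ
  have hρ0 : 0 < ρ := lt_min (by norm_num) (by positivity)
  have hρ1 : ρ ≤ 1 / 20 := min_le_left _ _
  have hρ2 : ρ * (1 + c) ≤ ζ := by
    have : ρ ≤ ζ / (1 + c) := min_le_right _ _
    rwa [le_div_iff₀ (by linarith)] at this
  obtain ⟨C₂, hC₂, herr⟩ := err_rho B hρ0 hρ1
  set X : ℝ := max 1000 (4 / ζ) with hX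
  have hX1 : 1000 ≤ X := le_max_left _ _
  have hX2 : 4 / ζ ≤ X := le_max_right _ _
  refine ⟨min δ₀ (0.8 * δ₁), (1 + (3 : ℝ) ^ X) * X ^ B + C₀ + (C₁ * (5 / 4) ^ B + C₂),
    lt_min hδ₀ (by positivity), by positivity, ?_⟩
  intro a b hab hs t ht htc q hq h3 hqδ E m hm
  have hba : 0 < b - a := by linarith
  set s := Real.log (b - a) with hsd
  have hs0 : 0 < s := by linarith
  have hg0 : 0 ≤ Od t (gg q E) := Od_nonneg t fun k => gg_nonneg _ _ _
  have hsB : 0 < s ^ B := by positivity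
  rcases le_or_gt s X with hcase | hcase
  · -- small windows
    refine PB_mono hab.le ?_ (PB_triv hab hs hcase hm)
    have h1 : 1 + (3 : ℝ) ^ X ≤ ((1 + (3 : ℝ) ^ X) * X ^ B + C₀ + (C₁ * (5 / 4) ^ B + C₂)) / s ^ B := by
      rw [le_div_iff₀ hsB]
      have h2 : s ^ B ≤ X ^ B := pow_le_pow_left₀ hs0.le hcase B
      have h3 : (1 + (3 : ℝ) ^ X) * s ^ B ≤ (1 + (3 : ℝ) ^ X) * X ^ B :=
        mul_le_mul_of_nonneg_left h2 (by positivity)
      have h4 : 0 < C₁ * (5 / 4) ^ B := by positivity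
      linarith
    linarith
  · have hs1000 : 1000 ≤ s := by linarith
    have hq0 : (q : ℝ) ≤ Real.exp (δ₀ * s) :=
      hqδ.trans (Real.exp_le_exp.2 (mul_le_mul_of_nonneg_right (min_le_left _ _) hs0.le))
    have hq1 : (q : ℝ) ≤ Real.exp (δ₁ * (0.8 * s)) := by
      refine hqδ.trans (Real.exp_le_exp.2 ?_)
      have := mul_le_mul_of_nonneg_right (min_le_right δ₀ (0.8 * δ₁)) hs0.le
      linarith
    have hC3 : 0 < (1 + (3 : ℝ) ^ X) * X ^ B := by positivity
    have hC4 : 0 < C₁ * (5 / 4) ^ B := by positivity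
    rcases le_or_gt (t : ℝ) (6 / 5 * s) with htt | htt
    · refine PB_mono hab.le ?_ (hQ0 a b hab hs t ht htt q hq h3 hq0 E m hm)
      apply add_le_add_right
      apply div_le_div_of_nonneg_right _ hsB.le
      linarith
    · obtain ⟨k, hk⟩ : ∃ k : ℕ, k = ⌊s / 2⌋₊ := ⟨_, rfl⟩
      obtain ⟨m', hm'⟩ : ∃ m' : ℕ, m' = ⌊Real.sqrt (0.8 * s)⌋₊ := ⟨_, rfl⟩
      have hk1 : (k : ℝ) ≤ s / 2 := by rw [hk]; exact Nat.floor_le (by linarith)
      have hk2 : s / 2 - 1 ≤ k := by rw [hk]; linarith [Nat.lt_floor_add_one (s / 2)]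
      have hk1N : 1 ≤ k := by
        have : (1 : ℝ) ≤ k := by linarith
        exact_mod_cast this
      have hm'sq : (m' : ℝ) ^ 2 ≤ 0.8 * s := by
        have h1 : (m' : ℝ) ≤ Real.sqrt (0.8 * s) := by
          rw [hm']; exact Nat.floor_le (Real.sqrt_nonneg _)
        calc (m' : ℝ) ^ 2 ≤ (Real.sqrt (0.8 * s)) ^ 2 :=
              pow_le_pow_left₀ (Nat.cast_nonneg _) h1 2
          _ = 0.8 * s := Real.sq_sqrt (by linarith)
      have hm'k : m' ≤ k := by
        have : (m' : ℝ) ≤ k := by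
          have h0 : (0 : ℝ) ≤ m' := Nat.cast_nonneg _
          by_contra hcon
          push Not at hcon
          nlinarith
        exact_mod_cast this
      set r := ⌊ρ * k⌋₊ with hr
      have hrk : (r : ℝ) ≤ ρ * k := Nat.floor_le (by positivity)
      have hr20 : 20 * r ≤ k := by
        have : (20 : ℝ) * r ≤ k := by nlinarith
        exact_mod_cast this
      have hE := herr (b - a) hba hs1000 k m m' hm hk hm'
      rw [← hr] at hE
      have hTm : 2 * k + r < t := by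
        have h20 : (20 : ℝ) * r ≤ k := by exact_mod_cast hr20
        have : ((2 * k + r : ℕ) : ℝ) < t := by
          push_cast
          linarith
        exact_mod_cast this
      have hlog2 := Real.log_two_lt_d9
      have hlog20 : 0 < Real.log 2 := Real.log_pos (by norm_num)
      have hst := stage2 odd_one isCoprime_one_left (S := SS t q E)
        (S' := fun T => SS (t - T) q (fun j r => E (j + k) r)) hab hk1N hm'k (m := m)
        (Tl := 2 * k - r) (Tm := 2 * k + r)
        (ρ := fun T => Od (t - T) (fun j => gg q E (j + k)) + C₁ / (0.8 * s) ^ B) (by omega)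
        (fun w M x hwl hw hT1 hT2 hMo hxo hMS hV => SS_shift hw hwl (by omega) hMo hxo hV hMS)
        (by
          intro T hT1 hT2
          have hn := next_scale hba hs1000 hk (T := T) (by omega) (by omega)
          have e0 : b * 3 ^ k / 2 ^ T - a * 3 ^ k / 2 ^ T = (b - a) * 3 ^ k / 2 ^ T := by ring
          have hab' : a * 3 ^ k / 2 ^ T < b * 3 ^ k / 2 ^ T := by
            have : 0 < (b - a) * 3 ^ k / 2 ^ T := by positivity
            linarith
          have hlogA : Real.log ((b - a) * 3 ^ k / 2 ^ T) = s + k * Real.log 3 - T * Real.log 2 := by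
            rw [Real.log_div (by positivity) (by positivity),
              Real.log_mul (by positivity) (by positivity), Real.log_pow, Real.log_pow]
          rw [← hsd] at hn
          have h1 := hQ1 (a * 3 ^ k / 2 ^ T) (b * 3 ^ k / 2 ^ T) hab' (by rw [e0]; linarith [hn.1])
            (t - T) (by omega) (by
              rw [e0, hlogA, Nat.cast_sub (by omega)]
              have d1 : (T : ℝ) ≤ 2 * k + r := by exact_mod_cast hT2
              have d2 : (2 : ℝ) * k ≤ T + r := by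
                have : 2 * k ≤ T + r := by omega
                exact_mod_cast this
              have hl43 := log43_eq
              have d3 : (k : ℝ) * Real.log (4 / 3) ≤ s / 2 * Real.log (4 / 3) :=
                mul_le_mul_of_nonneg_right hk1 (Real.log_nonneg (by norm_num))
              have d4 : ((T : ℝ) - 2 * k) * Real.log 2 ≤ r * Real.log 2 :=
                mul_le_mul_of_nonneg_right (by linarith) hlog20.le
              have d5 : (r : ℝ) * Real.log 2 ≤ r := by
                have : (0 : ℝ) ≤ r := Nat.cast_nonneg r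
                nlinarith
              have d6 : kap * s - r ≤ s + k * Real.log 3 - T * Real.log 2 := by
                unfold kap
                rw [hl43] at d3 ⊢
                linarith
              have d7 : c * (kap * s - r) ≤ c * (s + k * Real.log 3 - T * Real.log 2) :=
                mul_le_mul_of_nonneg_left d6 hc0
              refine le_trans ?_ d7
              have d8 : (r : ℝ) ≤ ρ * (s / 2) :=
                hrk.trans (mul_le_mul_of_nonneg_left hk1 hρ0.le)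
              have d9 : (1 + c) * (r : ℝ) ≤ ζ * s / 2 := by
                have : (1 + c) * (r : ℝ) ≤ (1 + c) * (ρ * (s / 2)) :=
                  mul_le_mul_of_nonneg_left d8 (by linarith)
                have h5 : ρ * (1 + c) * (s / 2) ≤ ζ * (s / 2) :=
                  mul_le_mul_of_nonneg_right hρ2 (by linarith)
                linarith
              have d10 : 2 ≤ ζ * s / 2 := by
                have h5 : 4 / ζ < s := lt_of_le_of_lt hX2 hcase
                rw [div_lt_iff₀ hζ0] at h5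
                linarith
              have d11 : c' * s = s + kap * c * s - ζ * s := by rw [hζ]; ring
              linarith) q hq h3 (by
              rw [e0]
              refine hq1.trans (Real.exp_le_exp.2 ?_)
              exact mul_le_mul_of_nonneg_left hn.1 hδ₁.le) (fun j r => E (j + k) r) m' (by
              rw [e0]; linarith [hn.1])
          refine PB_mono hab'.le ?_ h1
          rw [e0]
          have h2 : C₁ / Real.log ((b - a) * 3 ^ k / 2 ^ T) ^ B ≤ C₁ / (0.8 * s) ^ B := by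
            apply div_le_div_of_nonneg_left hC₁.le (by positivity)
            exact pow_le_pow_left₀ (by positivity) hn.1 B
          have h3 : Od (t - T) (gg q fun j r => E (j + k) r) = Od (t - T) (fun j => gg q E (j + k)) := rfl
          rw [h3]
          linarith)
      refine PB_mono hab.le ?_ hst
      have h1 : ∑ w ∈ GW (3 * k) k (2 * k - r) (2 * k + r), wwt w *
          (Od (t - w.sum) (fun j => gg q E (j + k)) + C₁ / (0.8 * s) ^ B) ≤
          Od t (gg q E) + C₁ / (0.8 * s) ^ B := by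
        have h2 : ∀ w ∈ GW (3 * k) k (2 * k - r) (2 * k + r), wwt w *
          (Od (t - w.sum) (fun j => gg q E (j + k)) + C₁ / (0.8 * s) ^ B) =
            wwt w * Od (t - w.sum) (fun j => gg q E (j + k)) + wwt w * (C₁ / (0.8 * s) ^ B) :=
          fun w _ => by ring
        rw [sum_congr rfl h2, sum_add_distrib, ← sum_mul]
        have h4 := Od_stage (A := 3 * k) (k := k) (Tl := 2 * k - r) hTm
          (g := gg q E) (fun j => gg_nonneg _ _ _)
        have h5 := mul_le_mul_of_nonneg_right (mass_le_one k (2 * k - r) (2 * k + r))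
          (show 0 ≤ C₁ / (0.8 * s) ^ B by positivity)
        linarith
      have e1 : C₁ / (0.8 * s) ^ B = C₁ * (5 / 4) ^ B / s ^ B := by
        rw [mul_pow, show (0.8 : ℝ) = 4 / 5 by norm_num, div_pow, div_pow]
        field_simp
      have e2 : ((1 + (3 : ℝ) ^ X) * X ^ B + C₀ + (C₁ * (5 / 4) ^ B + C₂)) / s ^ B =
          ((1 + (3 : ℝ) ^ X) * X ^ B + C₀) / s ^ B + C₁ * (5 / 4) ^ B / s ^ B + C₂ / s ^ B := by ring
      have e3 : 0 ≤ ((1 + (3 : ℝ) ^ X) * X ^ B + C₀) / s ^ B := by positivity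
      rw [e2, ← e1]
      linarith

end Pool.Agent.Q158.Col4
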